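import Mathlib
import Pool.Agent.H964.CW.Stm

/-! # Project CW: BOX (the mass of a box is bounded by the overlap) -/

set_option autoImplicit false

open MeasureTheory ProbabilityTheory Filter Finset

namespace Pool.Agent.H734.CW

open Pool.Agent.H964.QC Pool.Agent.H964.CW

/-- the overlap as a double sum -/
theorem ov_eq {V : Type} [Fintype V] [DecidableEq V] {C0 : ℝ} {N0 : ℕ} (W : Wlk V C0 N0)
    (u : V → ℝ) (n : ℕ) : ov W u n = ∑ x, ∑ y, u x * u y * W.K (2 * n) x y := by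
  unfold ov wt
  have h1 : ∀ z, (∑ x, u x * W.K n x z) ^ 2 =
      ∑ x, ∑ y, u x * u y * (W.K n x z * W.K n z y) := by
    intro z
    rw [sq, Finset.sum_mul_sum]
    refine Finset.sum_congr rfl fun x _ => Finset.sum_congr rfl fun y _ => ?_
    rw [W.K_symm n z y]
    ring
  simp_rw [h1]
  rw [Finset.sum_comm]
  refine Finset.sum_congr rfl fun x _ => ?_
  rw [Finset.sum_comm]
  refine Finset.sum_congr rfl fun y _ => ?_
  rw [two_mul, W.K_add, Finset.mul_sum]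

/-- a lower bound for the one-dimensional transition probabilities -/
theorem q_low {M n a : ℕ} [NeZero M] {p : ℤ} (hn : 1 ≤ n) (ha : a ^ 2 ≤ n)
    (h0 : 0 ≤ q1 M (2 * n) 0)
    (hq : ∀ i : ℤ, q1 M (2 * n) 0 * (1 - (i : ℝ) ^ 2 / n) ≤ q1 M (2 * n) ((2 * i : ℤ) : ZMod M))
    {x y : ZMod M} (hx : p ≤ x.valMinAbs ∧ x.valMinAbs < p + a)
    (hy : p ≤ y.valMinAbs ∧ y.valMinAbs < p + a) (hi : ∃ i : ℤ, y.valMinAbs - x.valMinAbs = 2 * i) :
    q1 M (2 * n) 0 * (3 / 4) ≤ q1 M (2 * n) (y - x) := by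
  obtain ⟨i, hi⟩ := hi
  have h1 : y - x = ((2 * i : ℤ) : ZMod M) := by
    rw [← hi, Int.cast_sub, ZMod.coe_valMinAbs, ZMod.coe_valMinAbs]
  rw [h1]
  refine le_trans ?_ (hq i)
  refine mul_le_mul_of_nonneg_left ?_ h0
  have h2 : (2 * i) ^ 2 ≤ (a : ℤ) ^ 2 := by
    apply sq_le_sq'
    · omega
    · omega
  have h3 : 4 * i ^ 2 ≤ (n : ℤ) := by
    have h4 : ((a ^ 2 : ℕ) : ℤ) ≤ n := by exact_mod_cast ha
    push_cast at h4
    nlinarith
  have h5 : 4 * (i : ℝ) ^ 2 ≤ n := by exact_mod_cast h3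
  have hn0 : (0 : ℝ) < n := by exact_mod_cast hn
  have h6 : (i : ℝ) ^ 2 / n ≤ 1 / 4 := by
    rw [div_le_iff₀ hn0]
    linarith
  linarith

theorem t_BOX : S_BOX := by
  intro hRR hT C0 N0 M _ W hW u t n a p q hu hcls h1 hN ha
  obtain ⟨-, -, hr, -⟩ := hRR
  obtain ⟨C, -, hT⟩ := hT
  obtain ⟨q0, -, -, -, qret, -, qlow, -⟩ := hT N0 M hW.hM
  have hn0 : (0 : ℝ) < n := by exact_mod_cast h1
  rw [ov_eq, sq, Finset.sum_mul_sum, Finset.mul_sum]
  refine Finset.sum_le_sum fun x _ => ?_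
  rw [Finset.mul_sum]
  refine Finset.sum_le_sum fun y _ => ?_
  have hK := W.K_nonneg (2 * n) x y
  have hux := hu x
  have huy := hu y
  have hnn : 0 ≤ 8 * (n : ℝ) * (u x * u y * W.K (2 * n) x y) := by positivity
  by_cases hx0 : u x = 0
  · rw [hx0, ite_self, zero_mul]
    simp
  by_cases hy0 : u y = 0
  · rw [hy0, ite_self, mul_zero]
    simp
  by_cases hx : (p ≤ X1 x ∧ X1 x < p + a) ∧ (q ≤ X2 x ∧ X2 x < q + a)
  swap
  · rw [if_neg hx, zero_mul]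
    exact hnn
  by_cases hy : (p ≤ X1 y ∧ X1 y < p + a) ∧ (q ≤ X2 y ∧ X2 y < q + a)
  swap
  · rw [if_neg hy, mul_zero]
    exact hnn
  rw [if_pos hx, if_pos hy]
  obtain ⟨i, j, hi, hj⟩ := hW.cls_par t y x (hcls y hy0) (hcls x hx0)
  have l1 := q_low h1 ha (q0 (2 * n) 0) (fun i => qlow n i h1 hN) hx.1 hy.1 ⟨i, hi⟩
  have l2 := q_low h1 ha (q0 (2 * n) 0) (fun i => qlow n i h1 hN) hx.2 hy.2 ⟨j, hj⟩
  have hq0 := q0 (2 * n) 0
  have hk : 1 / (8 * (n : ℝ)) ≤ W.K (2 * n) x y := by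
    rw [hW.K_eq]
    have l3 : (q1 M (2 * n) 0 * (3 / 4)) * (q1 M (2 * n) 0 * (3 / 4)) ≤
        q1 M (2 * n) (y.1 - x.1) * q1 M (2 * n) (y.2 - x.2) :=
      mul_le_mul l1 l2 (by positivity) (q0 _ _)
    have l4 := qret n hN
    have l5 := hr n h1
    have l6 : (q1 M (2 * n) 0 * (3 / 4)) * (q1 M (2 * n) 0 * (3 / 4)) = 9 / 16 * rr n := by
      rw [← l4]
      ring
    have l7 : 1 / (8 * (n : ℝ)) ≤ 9 / 16 * (1 / (4 * (n : ℝ))) := by
      rw [div_mul_div_comm, div_le_div_iff₀ (by positivity) (by positivity)]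
      nlinarith
    rw [l6] at l3
    linarith
  have h8 : 1 ≤ 8 * (n : ℝ) * W.K (2 * n) x y := by
    rw [div_le_iff₀ (by positivity)] at hk
    linarith
  calc u x * u y = u x * u y * 1 := (mul_one _).symm
    _ ≤ u x * u y * (8 * (n : ℝ) * W.K (2 * n) x y) :=
        mul_le_mul_of_nonneg_left h8 (mul_nonneg hux huy)
    _ = 8 * (n : ℝ) * (u x * u y * W.K (2 * n) x y) := by ring

end Pool.Agent.H734.CW
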